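import Mathlib
import Pool.Agent.H25.Stage2
import Pool.Agent.H25.Mac5

/-!
The generating function of plane partitions is not differentially algebraic, over any field of
characteristic zero.
-/

set_option autoImplicit false

namespace Pool.Agent.Results.MP_e73c56_co.NotDAlgebraic

/-- `a` is a plane partition of `n`: an array of natural numbers indexed by all pairs of natural
numbers, weakly decreasing along rows and columns, with finitely many nonzero entries whose sum
is `n`. -/
def IsPlanePartition (n : ℕ) (a : ℕ × ℕ → ℕ) : Prop :=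
  (∀ i j : ℕ, a (i, j + 1) ≤ a (i, j)) ∧ (∀ i j : ℕ, a (i + 1, j) ≤ a (i, j)) ∧
    {p : ℕ × ℕ | a p ≠ 0}.Finite ∧ ∑ᶠ p : ℕ × ℕ, a p = n

/-- the number of plane partitions of `n` -/
noncomputable def pp (n : ℕ) : ℕ := Set.ncard {a : ℕ × ℕ → ℕ | IsPlanePartition n a}

/-- `f` is D-algebraic over `K`: for some `m` there is a nonzero polynomial `Q` in the variables
`x, y_0, ..., y_m` over `K` with `Q(t, f, f', ..., f^(m)) = 0`. -/
def IsDAlgebraic (K : Type*) [CommRing K] (f : PowerSeries K) : Prop :=
  ∃ (m : ℕ) (Q : MvPolynomial (Option (Fin (m + 1))) K), Q ≠ 0 ∧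
    MvPolynomial.aeval (fun o : Option (Fin (m + 1)) =>
      Option.elim o (PowerSeries.X : PowerSeries K)
        (fun i => (⇑(PowerSeries.derivative K))^[(i : ℕ)] f)) Q = 0

open Pool.Agent.H25

theorem curry_image (n : ℕ) :
    (fun (a : ℕ × ℕ → ℕ) => fun i j => a (i, j)) '' {a : ℕ × ℕ → ℕ | IsPlanePartition n a} =
      ppInf n := by
  ext F
  constructor
  · rintro ⟨a, ⟨h1, h2, h3, h4⟩, rfl⟩
    have hrow : ∀ i, Antitone (fun j => a (i, j)) := fun i => antitone_nat_of_succ_le (h1 i)
    have hcol : ∀ j, Antitone (fun i => a (i, j)) := fun j => antitone_nat_of_succ_le (fun i => h2 i j)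
    have hsup : (Function.support a).Finite := h3
    have hge : ∀ s : Finset (ℕ × ℕ), ∑ p ∈ s, a p ≤ n := by
      intro s
      rw [← h4, finsum_eq_sum_of_support_subset (s := s ∪ hsup.toFinset) a (by
        intro p hp; simp; right; exact hp)]
      exact Finset.sum_le_sum_of_subset Finset.subset_union_left
    have hz : ∀ i j, n ≤ i ∨ n ≤ j → a (i, j) = 0 := by
      intro i j hij
      by_contra hne
      rcases hij with h | h
      · have h5 := hge ((Finset.range (i + 1)).image (fun i' => (i', j)))
        rw [Finset.sum_image (by intro x _ y _ hxy; exact (Prod.mk.inj hxy).1)] at h5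
        have h6 : i + 1 ≤ ∑ i' ∈ Finset.range (i + 1), a (i', j) := by
          calc i + 1 = ∑ i' ∈ Finset.range (i + 1), 1 := by simp
            _ ≤ _ := Finset.sum_le_sum (fun i' hi' => by
              rw [Finset.mem_range] at hi'
              have := hcol j (show i' ≤ i by omega)
              simp only at this
              omega)
        omega
      · have h5 := hge ((Finset.range (j + 1)).image (fun j' => (i, j')))
        rw [Finset.sum_image (by intro x _ y _ hxy; exact (Prod.mk.inj hxy).2)] at h5
        have h6 : j + 1 ≤ ∑ j' ∈ Finset.range (j + 1), a (i, j') := by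
          calc j + 1 = ∑ j' ∈ Finset.range (j + 1), 1 := by simp
            _ ≤ _ := Finset.sum_le_sum (fun j' hj' => by
              rw [Finset.mem_range] at hj'
              have := hrow i (show j' ≤ j by omega)
              simp only at this
              omega)
        omega
    refine ⟨fun i j k h => hcol j h, fun i j k h => hrow i h, hz, ?_⟩
    rw [← Finset.sum_product']
    refine Eq.trans ?_ h4
    symm
    apply finsum_eq_sum_of_support_subset
    intro p hp
    simp only [Finset.coe_product, Finset.coe_range, Set.mem_prod, Set.mem_Iio]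
    by_contra hc
    apply hp
    have : n ≤ p.1 ∨ n ≤ p.2 := by
      by_contra h; push Not at h; exact hc h
    exact hz p.1 p.2 this
  · rintro ⟨h1, h2, h3, h4⟩
    have hsub : Function.support (fun p : ℕ × ℕ => F p.1 p.2) ⊆
        ((Finset.range n ×ˢ Finset.range n : Finset (ℕ × ℕ)) : Set (ℕ × ℕ)) := by
      intro p hp
      simp only [Finset.coe_product, Finset.coe_range, Set.mem_prod, Set.mem_Iio]
      by_contra hc
      apply hp
      have : n ≤ p.1 ∨ n ≤ p.2 := by
        by_contra h; push Not at h; exact hc h
      exact h3 p.1 p.2 this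
    refine ⟨fun p => F p.1 p.2, ⟨fun i j => h2 i j (j + 1) (Nat.le_succ j),
      fun i j => h1 i j (i + 1) (Nat.le_succ i), (Finset.finite_toSet _).subset hsub, ?_⟩, rfl⟩
    rw [finsum_eq_sum_of_support_subset _ hsub, Finset.sum_product]
    exact h4

theorem pp_eq (n : ℕ) : pp n = pN n n := by
  unfold pp pN
  rw [← Set.ncard_image_of_injective {a : ℕ × ℕ → ℕ | IsPlanePartition n a}
      (f := fun (a : ℕ × ℕ → ℕ) => fun i j => a (i, j))
      (by intro a b h; funext p; exact congrFun (congrFun h p.1) p.2),
    curry_image, ← Set.ncard_image_of_injective (ppSet n n) ext0_injective,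
    image_ppSet n n le_rfl]

theorem map_deriv {A B : Type*} [CommRing A] [CommRing B] (φ : A →+* B) (f : PowerSeries A) :
    PowerSeries.map φ (PowerSeries.derivative A f) =
      PowerSeries.derivative B (PowerSeries.map φ f) := by
  ext n
  simp [PowerSeries.coeff_derivative, PowerSeries.coeff_map]

theorem map_deriv_iter {A B : Type*} [CommRing A] [CommRing B] (φ : A →+* B) (f : PowerSeries A)
    (k : ℕ) : PowerSeries.map φ ((⇑(PowerSeries.derivative A))^[k] f) =
      (⇑(PowerSeries.derivative B))^[k] (PowerSeries.map φ f) := by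
  induction k with
  | zero => rfl
  | succ k ih =>
    rw [Function.iterate_succ_apply', Function.iterate_succ_apply', map_deriv, ih]

theorem map_gen (L : Type*) [Field L] [CharZero L] (m : ℕ) (o : Option (Fin (m + 1))) :
    PowerSeries.map (algebraMap ℚ L) (Option.elim o (PowerSeries.X : PowerSeries ℚ)
        (fun i => (⇑(PowerSeries.derivative ℚ))^[(i : ℕ)]
          (PowerSeries.mk (fun n => (pp n : ℚ))))) =
      Option.elim o (PowerSeries.X : PowerSeries L)
        (fun i => (⇑(PowerSeries.derivative L))^[(i : ℕ)]
          (PowerSeries.mk (fun n => (pp n : L)))) := by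
  rcases o with _ | i
  · simp
  · simp only [Option.elim]
    rw [map_deriv_iter]
    congr 1
    ext n
    simp

/-- the relation over `ℂ` is impossible -/
theorem complex_case (m : ℕ) (Q : MvPolynomial (Option (Fin (m + 1))) ℂ) (hQ : Q ≠ 0)
    (h : MvPolynomial.aeval (fun o : Option (Fin (m + 1)) =>
      Option.elim o (PowerSeries.X : PowerSeries ℂ)
        (fun i => (⇑(PowerSeries.derivative ℂ))^[(i : ℕ)] PPs)) Q = 0) : False := by
  set e : Option (Fin (m + 1)) → ℕ := fun o => Option.elim o 0 (fun i => (i : ℕ) + 1) with he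
  have hinj : Function.Injective e := by
    intro a b hab
    rcases a with _ | a <;> rcases b with _ | b
    · rfl
    · simp [he] at hab
    · simp [he] at hab
    · simp only [he, Option.elim] at hab
      congr 1
      exact Fin.ext (by omega)
  have hQ' : MvPolynomial.rename e Q ≠ 0 := by
    intro hc
    exact hQ (MvPolynomial.rename_injective e hinj (by rw [hc, map_zero]))
  obtain ⟨P, hP, hPG⟩ := stage1 PPs PPs_ne_zero macmahon (MvPolynomial.rename e Q) hQ' (by
    rw [MvPolynomial.aeval_rename, ← h]
    congr 2
    funext o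
    rcases o with _ | i
    · simp [he]
    · simp [he])
  exact stage2 P hP hPG

theorem result (K : Type*) [Field K] [CharZero K] :
    ¬ IsDAlgebraic K (PowerSeries.mk (fun n => (pp n : K))) := by
  rintro ⟨m, Q, hQ, hrel⟩
  set g : Option (Fin (m + 1)) → PowerSeries ℚ := fun o => Option.elim o (PowerSeries.X)
        (fun i => (⇑(PowerSeries.derivative ℚ))^[(i : ℕ)] (PowerSeries.mk (fun n => (pp n : ℚ))))
    with hg
  -- a coefficient of `Q` and a rational linear form not vanishing on it
  obtain ⟨s₀, hs₀⟩ := MvPolynomial.ne_zero_iff.mp hQ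
  obtain ⟨φ, hφ⟩ : ∃ φ : K →ₗ[ℚ] ℚ, φ (MvPolynomial.coeff s₀ Q) ≠ 0 := by
    by_contra hc
    push Not at hc
    exact hs₀ ((Module.forall_dual_apply_eq_zero_iff ℚ _).mp hc)
  -- the rational polynomial obtained by applying the linear form to the coefficients
  set R : MvPolynomial (Option (Fin (m + 1))) ℚ :=
    ∑ s ∈ Q.support, MvPolynomial.monomial s (φ (MvPolynomial.coeff s Q)) with hR
  have hRs : MvPolynomial.coeff s₀ R ≠ 0 := by
    rw [hR, MvPolynomial.coeff_sum]
    simp only [MvPolynomial.coeff_monomial]
    rw [Finset.sum_ite_eq' Q.support s₀, if_pos (MvPolynomial.mem_support_iff.mpr hs₀)]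
    exact hφ
  have hR0 : R ≠ 0 := MvPolynomial.ne_zero_iff.mpr ⟨s₀, hRs⟩
  -- values of monomials
  set M : (Option (Fin (m + 1)) →₀ ℕ) → PowerSeries ℚ := fun s =>
    MvPolynomial.aeval g (MvPolynomial.monomial s (1 : ℚ)) with hM
  have hQval : ∀ n, ∑ s ∈ Q.support, MvPolynomial.coeff s Q *
      algebraMap ℚ K (PowerSeries.coeff n (M s)) = 0 := by
    intro n
    have h1 := congrArg (PowerSeries.coeff n) hrel
    rw [map_zero] at h1
    rw [← h1]
    conv_rhs => rw [MvPolynomial.as_sum Q, map_sum, map_sum]
    apply Finset.sum_congr rfl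
    intro s _
    have h2 : (fun o : Option (Fin (m + 1)) => Option.elim o (PowerSeries.X : PowerSeries K)
        (fun i => (⇑(PowerSeries.derivative K))^[(i : ℕ)]
          (PowerSeries.mk (fun n => (pp n : K))))) =
        fun o => PowerSeries.map (algebraMap ℚ K) (g o) := by
      funext o
      exact (map_gen K m o).symm
    rw [h2, MvPolynomial.aeval_monomial]
    simp only [hM, MvPolynomial.aeval_monomial, map_one, one_mul]
    have h3 : (s.prod fun i k => (PowerSeries.map (algebraMap ℚ K) (g i)) ^ k) =
        PowerSeries.map (algebraMap ℚ K) (s.prod fun i k => (g i) ^ k) := by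
      rw [map_finsuppProd]
      simp
    rw [h3]
    rw [← Algebra.smul_def, PowerSeries.coeff_smul, PowerSeries.coeff_map, smul_eq_mul]
  have hRval : MvPolynomial.aeval g R = 0 := by
    ext n
    rw [hR, map_sum, map_sum, map_zero]
    have h1 := congrArg φ (hQval n)
    rw [map_zero, map_sum] at h1
    rw [← h1]
    apply Finset.sum_congr rfl
    intro s _
    rw [mul_comm (MvPolynomial.coeff s Q), ← Algebra.smul_def, map_smul, smul_eq_mul]
    have h2 : MvPolynomial.monomial s (φ (MvPolynomial.coeff s Q)) =
        (φ (MvPolynomial.coeff s Q)) • MvPolynomial.monomial s (1 : ℚ) := by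
      rw [MvPolynomial.smul_monomial, smul_eq_mul, mul_one]
    rw [h2, map_smul, PowerSeries.coeff_smul, smul_eq_mul, mul_comm]
  -- pass to `ℂ`
  refine complex_case m (MvPolynomial.map (algebraMap ℚ ℂ) R) ?_ ?_
  · intro h
    apply hR0
    apply MvPolynomial.map_injective (algebraMap ℚ ℂ) (algebraMap ℚ ℂ).injective
    rw [h, map_zero]
  · have h1 := congrArg (PowerSeries.map (algebraMap ℚ ℂ)) hRval
    rw [map_zero] at h1
    rw [← h1]
    rw [MvPolynomial.aeval_def, MvPolynomial.eval₂_map, MvPolynomial.aeval_def,
      MvPolynomial.hom_eval₂]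
    congr 1
    · ext q
      simp
    · funext o
      have h2 : (PowerSeries.mk (fun n => (pp n : ℂ))) = PPs := by
        ext n
        unfold PPs
        rw [PowerSeries.coeff_mk, PowerSeries.coeff_mk, pp_eq]
      rw [← h2]
      exact (map_gen ℂ m o).symm

end Pool.Agent.Results.MP_e73c56_co.NotDAlgebraic
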